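import Pool.Agent.H68.Kl4

namespace Pool.Agent.Results.MP_28e63a_al.Counter

open Pool.Agent.H68.Kl

theorem result : ∃ (B W : Type) (_ : Finite B) (_ : Group W) (M : CoxeterMatrix B)
    (cs : CoxeterSystem M W) (H : Type) (_ : Ring H) (_ : Algebra A H) (K : KL cs H)
    (y v₀ x v₁ : W),
    MaxB cs (y * v₀) y v₀ 1 ∧ Red3 cs x v₁ x⁻¹ ∧ K.D (x * v₁ * x⁻¹) ∧ K.Df v₁ ∧ v₁ ≠ 1 ∧
    (∃ m n, K.IsA (x * v₁ * x⁻¹) m ∧ K.IsA v₀ n ∧ m ≤ n) ∧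
    Red cs (y * v₀) (x * v₁ * x⁻¹) ∧
    (∃ n, K.IsA (y * v₀ * (x * v₁ * x⁻¹)) n ∧ K.IsA (y * v₀) n) ∧
    ¬ ∃ v₀' v₀₁ : W, v₀ = v₀' * v₀₁ ∧ Red cs v₀' v₀₁ ∧
      (∀ t' t, v₀ = t' * t → Red cs t' t → cs.length t = cs.length v₀₁ →
        K.Rigid (t * x) v₁ 1) ∧
      K.MuNe (y * v₀) (y * v₀ * (x * v₁ * x⁻¹) * v₀₁⁻¹) := by
  refine ⟨Bool × Bool, G × G, inferInstance, inferInstance, MM, cs, HH, inferInstance,
    inferInstance, KK, 1, (.a, .a), 1, (.b, .b), ⟨⟨by decide, ?_, inFin _⟩, ?_⟩, ?_, df_bb.1,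
    df_bb, by decide, ⟨2, 2, isA .b .b (by simp) (by simp), isA _ _ (by simp) (by simp), le_rfl⟩,
    ?_, ⟨2, isA .ab .ab (by simp) (by simp), isA .a .a (by simp) (by simp)⟩, ?_⟩
  · simp only [Red3, len_eq]; decide
  · rintro ⟨x', v', y', p, r, ⟨h1, h2, -⟩, -, -, -, -, h5⟩
    unfold Red3 at h2
    rw [← h1, one_mul] at h2
    omega
  · simp only [Red3, len_eq]; decide
  · simp only [Red, len_eq]; decide
  · rintro ⟨a, b, h1, h2, h3, h6⟩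
    obtain ⟨-, ⟨⟨h4, h5, -⟩, h7⟩, -⟩ := h3 a b h1 h2 rfl
    have hb : b = 1 := by
      by_contra hne
      refine h7 ⟨1, _, 1, b * 1, 1, ⟨by simp, ?_, inFin _⟩, br_Bruhat _ _ ?_,
        Relation.ReflTransGen.refl, rfl, h5, ?_⟩
      · simp [Red3]
      · generalize b * 1 = z; revert z; decide
      · unfold Red3 at h5
        have := cs.length_eq_zero_iff.not.2 hne
        rw [h5, mul_one]
        omega
    rw [hb] at h6
    exact mu_aa h6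

end Pool.Agent.Results.MP_28e63a_al.Counter
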